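import Pool.Agent.Lib.MP_283c84_lc.Defs

/-!
# Clubs in `P_mu Lambda`: intersections of fewer than `mu` clubs, transfinite chains
-/

namespace Pool.Agent.Lib.MP_283c84_lc

open Cardinal Set

universe u

variable {μ : Cardinal.{u}} {Λ : Type u}

theorem card_iUnion_lt (hμ : μ.IsRegular) {ι : Type u} (hι : #ι < μ) {t : ι → Set Λ}
    (h : ∀ i, #(t i) < μ) : #(⋃ i, t i : Set Λ) < μ :=
  (card_iUnion_lt_iff_forall_of_isRegular hμ hι).2 h

theorem card_union_lt (hμ : μ.IsRegular) {s t : Set Λ} (hs : #s < μ) (ht : #t < μ) :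
    #(s ∪ t : Set Λ) < μ :=
  (mk_union_le s t).trans_lt (add_lt_of_lt hμ.aleph0_le hs ht)

theorem card_nat_lt (h0 : ℵ₀ < μ) : #(ULift.{u} ℕ) < μ := by
  simpa using h0

theorem card_iUnion_nat_lt (hμ : μ.IsRegular) (h0 : ℵ₀ < μ) {t : ℕ → Set Λ}
    (h : ∀ i, #(t i) < μ) : #(⋃ i, t i : Set Λ) < μ := by
  have h1 : (⋃ i, t i : Set Λ) = ⋃ i : ULift.{u} ℕ, t i.down := by
    ext x
    simp only [mem_iUnion]
    constructor
    · rintro ⟨i, hi⟩
      exact ⟨⟨i⟩, hi⟩
    · rintro ⟨i, hi⟩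
      exact ⟨i.down, hi⟩
  rw [h1]
  exact card_iUnion_lt hμ (card_nat_lt h0) (fun i => h i.down)

theorem card_sUnion_lt (hμ : μ.IsRegular) {D : Set (Set Λ)} (hD : #D < μ)
    (h : ∀ x ∈ D, #x < μ) : #(⋃₀ D : Set Λ) < μ := by
  rw [sUnion_eq_iUnion]
  exact card_iUnion_lt hμ hD (fun i => h i.1 i.2)

/-- The union of an increasing sequence of members of a club, of length `ℕ`. -/
theorem club_nat (h0 : ℵ₀ < μ) {C : Set (Set Λ)} (hC : IsClub μ C) {s : ℕ → Set Λ}
    (hs : ∀ n, s n ∈ C) (hm : Monotone s) : (⋃ n, s n) ∈ C := by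
  have h1 : (⋃ n, s n) = ⋃₀ (range s) := by rw [sUnion_range]
  rw [h1]
  refine hC.2.2 _ ?_ ⟨s 0, 0, rfl⟩ ?_ ?_
  · rintro _ ⟨n, rfl⟩
    exact hs n
  · exact hm.isChain_range
  · refine lt_of_le_of_lt ?_ h0
    exact (Set.countable_range s).le_aleph0

/-- The intersection of fewer than `μ` clubs is a club. -/
theorem IsClub.iInter (hμ : μ.IsRegular) (h0 : ℵ₀ < μ) {ι : Type u} (hι : #ι < μ)
    {K : ι → Set (Set Λ)} (hK : ∀ i, IsClub μ (K i)) :
    IsClub μ {x : Set Λ | #x < μ ∧ ∀ i, x ∈ K i} := by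
  refine ⟨fun x hx => hx.1, ?_, ?_⟩
  · intro x hx
    classical
    have h1 : ∀ (i : ι) (y : Set Λ), ∃ z : Set Λ, #y < μ → z ∈ K i ∧ y ⊆ z := by
      intro i y
      by_cases hy : #y < μ
      · obtain ⟨z, hz, hyz⟩ := (hK i).2.1 y hy
        exact ⟨z, fun _ => ⟨hz, hyz⟩⟩
      · exact ⟨∅, fun h => absurd h hy⟩
    choose k hk using h1
    let s : ℕ → Set Λ := fun n => Nat.rec (motive := fun _ => Set Λ) x (fun _ y => y ∪ ⋃ i, k i y) n
    have s0 : s 0 = x := rfl
    have ss : ∀ n, s (n+1) = s n ∪ ⋃ i, k i (s n) := fun _ => rfl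
    have hs : ∀ n, #(↥(s n)) < μ := by
      intro n
      induction n with
      | zero => exact hx
      | succ n ih =>
        rw [ss]
        exact card_union_lt hμ ih (card_iUnion_lt hμ hι (fun i => (hK i).1 _ (hk i (s n) ih).1))
    refine ⟨⋃ n, s n, ⟨card_iUnion_nat_lt hμ h0 hs, ?_⟩, ?_⟩
    · intro i
      have h2 : (⋃ n, s n) = ⋃ n, k i (s n) := by
        apply subset_antisymm
        · apply iUnion_subset
          intro n
          exact ((hk i (s n) (hs n)).2).trans (subset_iUnion (fun n => k i (s n)) n)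
        · apply iUnion_subset
          intro n
          refine Subset.trans ?_ (subset_iUnion s (n+1))
          rw [ss]
          exact (subset_iUnion (fun i => k i (s n)) i).trans subset_union_right
      rw [h2]
      refine club_nat h0 (hK i) (fun n => (hk i (s n) (hs n)).1) ?_
      refine monotone_nat_of_le_succ ?_
      intro n
      refine Subset.trans ?_ (hk i (s (n+1)) (hs (n+1))).2
      rw [ss]
      exact (subset_iUnion (fun i => k i (s n)) i).trans subset_union_right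
    · exact subset_iUnion s 0
  · intro D hD hne hch hlt
    refine ⟨card_sUnion_lt hμ hlt (fun x hx => (hD hx).1), ?_⟩
    intro i
    exact (hK i).2.2 D (fun x hx => (hD hx).2 i) hne hch hlt

/-- The intersection of two clubs is a club. -/
theorem IsClub.inter (hμ : μ.IsRegular) (h0 : ℵ₀ < μ) {K L : Set (Set Λ)} (hK : IsClub μ K)
    (hL : IsClub μ L) : IsClub μ (K ∩ L) := by
  have h2 : #(ULift.{u} Bool) < μ := by
    refine lt_trans ?_ h0
    exact mk_lt_aleph0
  have h := IsClub.iInter hμ h0 h2 (K := fun b : ULift.{u} Bool => if b.down then K else L)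
    (by
      intro b
      cases hb : b.down
      · simpa [hb] using hL
      · simpa [hb] using hK)
  have h3 : {x : Set Λ | #x < μ ∧ ∀ b : ULift.{u} Bool, x ∈ (if b.down then K else L)}
      = K ∩ L := by
    ext x
    simp only [Set.mem_ofPred_eq, mem_inter_iff]
    constructor
    · rintro ⟨_, h⟩
      exact ⟨by simpa using h ⟨true⟩, by simpa using h ⟨false⟩⟩
    · rintro ⟨h4, h5⟩
      refine ⟨hK.1 x h4, ?_⟩
      intro b
      cases hb : b.down
      · simpa [hb] using h5
      · simpa [hb] using h4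
  rwa [h3] at h

/-- The members of `P_μ Λ` which include a given one form a club. -/
theorem isClub_above (hμ : μ.IsRegular) {w : Set Λ} (hw : #w < μ) :
    IsClub μ {x : Set Λ | #x < μ ∧ w ⊆ x} := by
  refine ⟨fun x hx => hx.1, ?_, ?_⟩
  · intro x hx
    exact ⟨x ∪ w, ⟨card_union_lt hμ hx hw, subset_union_right⟩, subset_union_left⟩
  · intro D hD hne _ hlt
    refine ⟨card_sUnion_lt hμ hlt (fun x hx => (hD hx).1), ?_⟩
    obtain ⟨x, hx⟩ := hne
    exact (hD hx).2.trans (subset_sUnion_of_mem hx)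

/-- Transfinite chains: if each initial segment of the well-ordered type `I` has size `< μ`, then
there are `f i ∈ H i` with `f j ∈ G (f i)` for all `i < j`. -/
theorem exists_chain (hμ : μ.IsRegular) (h0 : ℵ₀ < μ) {I : Type u} [LinearOrder I]
    [WellFoundedLT I] (hI : ∀ i : I, #(Iio i) < μ) {H : I → Set (Set Λ)}
    (hH : ∀ i, IsClub μ (H i)) {G : Set Λ → Set (Set Λ)}
    (hG : ∀ y : Set Λ, #y < μ → IsClub μ (G y)) :
    ∃ f : I → Set Λ, (∀ i, f i ∈ H i) ∧ ∀ i j, i < j → f j ∈ G (f i) := by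
  classical
  have key : ∀ (j : I) (g : ∀ i : I, i < j → {x : Set Λ // #x < μ}),
      ∃ z : {x : Set Λ // #x < μ}, z.1 ∈ H j ∧ ∀ i (hi : i < j), z.1 ∈ G (g i hi).1 := by
    intro j g
    have hc := IsClub.iInter hμ h0 (hI j) (K := fun i : Iio j => G (g i.1 i.2).1)
      (fun i => hG _ (g i.1 i.2).2)
    have hc2 := IsClub.inter hμ h0 hc (hH j)
    obtain ⟨z, hz, _⟩ := hc2.2.1 ∅ (by
      rw [mk_eq_zero]
      exact lt_trans aleph0_pos h0)
    exact ⟨⟨z, hz.1.1⟩, hz.2, fun i hi => hz.1.2 ⟨i, hi⟩⟩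
  choose F hF using key
  let f : I → {x : Set Λ // #x < μ} := fun j =>
    (wellFounded_lt : WellFounded ((· < ·) : I → I → Prop)).fix (fun j g => F j g) j
  have hf : ∀ j, f j = F j (fun i _ => f i) := by
    intro j
    exact WellFounded.fix_eq _ _ _
  refine ⟨fun i => (f i).1, ?_, ?_⟩
  · intro i
    have := (hF i (fun i _ => f i)).1
    rw [← hf i] at this
    exact this
  · intro i j hij
    have := (hF j (fun i _ => f i)).2 i hij
    rw [← hf j] at this
    exact this

/-- The union of a monotone family of members of a club, indexed by a type of size `< μ`. -/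
theorem club_iUnion {C : Set (Set Λ)} (hC : IsClub μ C) {I : Type u} [LinearOrder I] [Nonempty I]
    (hI : #I < μ) {f : I → Set Λ} (hf : ∀ i, f i ∈ C) (hm : Monotone f) : (⋃ i, f i) ∈ C := by
  rw [← sUnion_range]
  refine hC.2.2 _ ?_ (range_nonempty f) hm.isChain_range (mk_range_le.trans_lt hI)
  rintro _ ⟨n, rfl⟩
  exact hf n

/-- As `club_iUnion`, when only the members from some index on are known to lie in the club. -/
theorem club_iUnion_tail {C : Set (Set Λ)} (hC : IsClub μ C) {I : Type u} [LinearOrder I]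
    (hI : #I < μ) {f : I → Set Λ} (i0 : I) (hf : ∀ i, i0 < i → f i ∈ C) (hm : Monotone f)
    (h1 : ∃ i, i0 < i) : (⋃ i, f i) ∈ C := by
  have : Nonempty (Ioi i0) := ⟨⟨h1.choose, h1.choose_spec⟩⟩
  have h2 := club_iUnion hC (I := Ioi i0) ((mk_set_le _).trans_lt hI) (f := fun i => f i.1)
    (fun i => hf i.1 i.2) (fun i j hij => hm hij)
  have h3 : (⋃ i : Ioi i0, f i.1) = ⋃ i, f i := by
    apply subset_antisymm
    · exact iUnion_subset fun i => subset_iUnion f i.1
    · refine iUnion_subset fun i => ?_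
      obtain ⟨j, hj⟩ := h1
      rcases le_total i j with h | h
      · exact (hm h).trans (subset_iUnion (fun i : Ioi i0 => f i.1) ⟨j, hj⟩)
      · exact subset_iUnion (fun i : Ioi i0 => f i.1) ⟨i, lt_of_lt_of_le hj h⟩
  rwa [h3] at h2

end Pool.Agent.Lib.MP_283c84_lc
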