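import Mathlib

/-!
# Lists on `P_mu Lambda`: clubs, stationary sets, thin lists, ineffable branches

`P_mu Lambda` is the family of all `x : Set Λ` with `#x < μ`.
-/

namespace Pool.Agent.Lib.MP_283c84_lc

open Cardinal Set

universe u

/-- `C` is a club subset of `P_μ Λ`: all its members have size `< μ`, it is cofinal in `P_μ Λ`
under inclusion, and it contains the union of each nonempty chain (under inclusion) of fewer
than `μ` of its members. -/
def IsClub (μ : Cardinal.{u}) {Λ : Type u} (C : Set (Set Λ)) : Prop :=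
  (∀ x ∈ C, #x < μ) ∧
  (∀ x : Set Λ, #x < μ → ∃ y ∈ C, x ⊆ y) ∧
  (∀ D : Set (Set Λ), D ⊆ C → D.Nonempty → IsChain (· ⊆ ·) D → #D < μ → ⋃₀ D ∈ C)

/-- `S` is stationary in `P_μ Λ`: it meets each club subset. -/
def IsStat (μ : Cardinal.{u}) {Λ : Type u} (S : Set (Set Λ)) : Prop :=
  ∀ C : Set (Set Λ), IsClub μ C → ∃ x ∈ C, x ∈ S

/-- `d` is a `P_μ Λ`-list: `d x ⊆ x` for each `x` of size `< μ` (values elsewhere are not
looked at). -/
def IsList (μ : Cardinal.{u}) {Λ : Type u} (d : Set Λ → Set Λ) : Prop :=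
  ∀ x : Set Λ, #x < μ → d x ⊆ x

/-- The traces of the list `d` on `y`: the sets `d x ∩ y` with `y ⊆ x` and `#x < μ`. -/
def Traces (μ : Cardinal.{u}) {Λ : Type u} (d : Set Λ → Set Λ) (y : Set Λ) : Set (Set Λ) :=
  {z | ∃ x : Set Λ, #x < μ ∧ y ⊆ x ∧ d x ∩ y = z}

/-- The list `d` has width `< ρ`: on each member `y` of some club it has fewer than `ρ` traces.
The list is thin if it has width `< μ`. -/
def HasWidth (μ ρ : Cardinal.{u}) {Λ : Type u} (d : Set Λ → Set Λ) : Prop :=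
  ∃ C : Set (Set Λ), IsClub μ C ∧ ∀ y ∈ C, #(Traces μ d y) < ρ

/-- `D` is an ineffable branch of the list `d`: `d x = D ∩ x` for stationary many `x`
in `P_μ Λ`. -/
def IsIneffableBranch (μ : Cardinal.{u}) {Λ : Type u} (d : Set Λ → Set Λ) (D : Set Λ) : Prop :=
  IsStat μ {x | D ∩ x = d x}

/-- `ITP(μ, l)`: each thin `P_μ Λ`-list with `#Λ = l` has an ineffable branch. -/
def ITP (μ l : Cardinal.{u}) : Prop :=
  ∀ Λ : Type u, #Λ = l → ∀ d : Set Λ → Set Λ, IsList μ d → HasWidth μ μ d →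
    ∃ D : Set Λ, IsIneffableBranch μ d D

/-- ITP holds at `μ`: `ITP(μ, l)` for all `l ≥ μ`. -/
def ITPAt (μ : Cardinal.{u}) : Prop := ∀ l : Cardinal.{u}, μ ≤ l → ITP μ l

end Pool.Agent.Lib.MP_283c84_lc
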