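import Pool.Agent.Lib.MP_283c84_lc.StepUp

/-!
# Without Kurepa families each thin list has few branches
-/

namespace Pool.Agent.Lib.MP_283c84_lc

open Cardinal Set

universe u

variable {μ : Cardinal.{u}} {Λ : Type u}

/-- There is a `μ`-Kurepa family (equivalently, a `μ`-Kurepa tree): more than `μ` subsets of `μ`
which have fewer than `μ` restrictions to each proper initial segment of `μ`. -/
def HasKurepaFamily (μ : Cardinal.{u}) : Prop :=
  ∃ F : Set (Set μ.ord.ToType),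
    (∀ i : μ.ord.ToType, #({z | ∃ A ∈ F, A ∩ Iio i = z} : Set (Set μ.ord.ToType)) < μ) ∧ μ < #F

theorem few_of_noKurepa (hμ : μ.IsRegular) (h0 : ℵ₀ < μ) (hΛ : μ ≤ #Λ)
    (hK : ¬ HasKurepaFamily.{u} μ) {d : Set Λ → Set Λ} (hT : HasWidth μ μ d) :
    FewBranches μ d := by
  classical
  obtain ⟨C, hC, hT⟩ := hT
  refine ⟨_, good_club hμ h0 hΛ hC, ?_⟩
  intro Y hY
  by_contra hcon
  rw [not_le] at hcon
  apply hK
  have he : Nonempty (μ.ord.ToType ≃ Y) := by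
    rw [← Cardinal.eq, mk_ord_toType, hY.1]
  obtain ⟨e⟩ := he
  have hinj : InjOn (fun B : Set Λ => {i : μ.ord.ToType | (e i).1 ∈ B}) (Branches μ d Y) := by
    intro B hB B' hB' heq
    have key : ∀ B B' : Set Λ, B ⊆ Y →
        {i : μ.ord.ToType | (e i).1 ∈ B} = {i : μ.ord.ToType | (e i).1 ∈ B'} → B ⊆ B' := by
      intro B B' hB heq a ha
      have h1 : e.symm ⟨a, hB ha⟩ ∈ {i : μ.ord.ToType | (e i).1 ∈ B} := by
        change (e (e.symm ⟨a, hB ha⟩)).1 ∈ B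
        rw [Equiv.apply_symm_apply]
        exact ha
      rw [heq] at h1
      change (e (e.symm ⟨a, hB ha⟩)).1 ∈ B' at h1
      rwa [Equiv.apply_symm_apply] at h1
    exact subset_antisymm (key B B' hB.1 heq) (key B' B hB'.1 heq.symm)
  refine ⟨(fun B : Set Λ => {i : μ.ord.ToType | (e i).1 ∈ B}) '' Branches μ d Y, ?_, ?_⟩
  · intro i
    have hy : #((fun j => (e j).1) '' Iio i : Set Λ) < μ :=
      mk_image_le.trans_lt (card_Iio_lt μ i)
    obtain ⟨c, hc, hc1, hc2⟩ := hY.2 ((fun j => (e j).1) '' Iio i) (by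
      rintro _ ⟨j, _, rfl⟩
      exact (e j).2) hy
    have hsub : ({z | ∃ A ∈ (fun B : Set Λ => {i : μ.ord.ToType | (e i).1 ∈ B}) ''
        Branches μ d Y, A ∩ Iio i = z} : Set (Set μ.ord.ToType)) ⊆
        (fun t : Set Λ => {j : μ.ord.ToType | (e j).1 ∈ t} ∩ Iio i) '' Traces μ d c := by
      rintro _ ⟨_, ⟨B, hB, rfl⟩, rfl⟩
      refine ⟨B ∩ c, hB.2 c hc2 (hC.1 c hc), ?_⟩
      ext j
      constructor
      · rintro ⟨h1, h2⟩
        exact ⟨h1.1, h2⟩
      · rintro ⟨h1, h2⟩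
        exact ⟨⟨h1, hc1 ⟨j, h2, rfl⟩⟩, h2⟩
    exact (mk_le_mk_of_subset hsub).trans_lt (mk_image_le.trans_lt (hT c hc))
  · rw [mk_image_eq_of_injOn _ _ hinj]
    exact hcon

end Pool.Agent.Lib.MP_283c84_lc
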