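import Pool.Agent.Lib.MP_283c84_lc.Club

/-!
# Narrow lists have ineffable branches (in ZFC)

If `ρ < μ` are infinite cardinals and `μ` is regular, each `P_μ Λ`-list which has fewer than `ρ`
traces on each member of some club has an ineffable branch.
-/

namespace Pool.Agent.Lib.MP_283c84_lc

open Cardinal Set

universe u

variable {μ : Cardinal.{u}} {Λ : Type u}

theorem card_Iio_lt (θ : Cardinal.{u}) (i : θ.ord.ToType) : #(Iio i) < θ := by
  simpa using Cardinal.mk_Iio_lt i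

theorem card_Iic_lt (θ : Cardinal.{u}) (h : ℵ₀ ≤ θ) (i : θ.ord.ToType) : #(Iic i) < θ := by
  simpa using Cardinal.mk_Iic_lt i (by simp) (by simpa using h)

theorem exists_card_Iio (θ ν : Cardinal.{u}) (h : ν < θ) : ∃ i : θ.ord.ToType, #(Iio i) = ν := by
  have h1 : ν.ord < Ordinal.type (α := θ.ord.ToType) (· < ·) := by
    simpa using Cardinal.ord_lt_ord.2 h
  refine ⟨Ordinal.enum (α := θ.ord.ToType) (· < ·) ⟨ν.ord, h1⟩, ?_⟩
  have h2 := Ordinal.typein_enum (α := θ.ord.ToType) (· < ·) h1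
  have h3 : #(Iio (Ordinal.enum (α := θ.ord.ToType) (· < ·) ⟨ν.ord, h1⟩)) =
    (Ordinal.typein (α := θ.ord.ToType) (· < ·)
      (Ordinal.enum (α := θ.ord.ToType) (· < ·) ⟨ν.ord, h1⟩)).card := rfl
  rw [h3, h2]
  simp

/-- A family of fewer than `θ` elements of `θ` (a regular cardinal) is bounded. -/
theorem exists_bound {θ : Cardinal.{u}} (hθ : θ.IsRegular) {ι : Type u} (hι : #ι < θ)
    (g : ι → θ.ord.ToType) : ∃ j : θ.ord.ToType, ∀ i, g i < j := by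
  by_contra hcon
  push Not at hcon
  have h1 : (⋃ i, Iic (g i) : Set θ.ord.ToType) = Set.univ := by
    rw [eq_univ_iff_forall]
    intro j
    obtain ⟨i, hi⟩ := hcon j
    exact mem_iUnion.2 ⟨i, hi⟩
  have h2 := (card_iUnion_lt_iff_forall_of_isRegular hθ hι (t := fun i => Iic (g i))).2
    (fun i => card_Iic_lt θ hθ.aleph0_le (g i))
  rw [h1, mk_univ, mk_ord_toType] at h2
  exact lt_irrefl _ h2

/-- The abstract form of the argument: `B x` is a set of candidates for branches of the list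
on `x`. -/
theorem branch_of_space (hμ : μ.IsRegular) (h0 : ℵ₀ < μ) {d : Set Λ → Set Λ} (hd : IsList μ d)
    {C : Set (Set Λ)} (hC : IsClub μ C) (hT : ∀ y ∈ C, #(Traces μ d y) < μ)
    (B : Set Λ → Set (Set Λ)) (hB1 : ∀ x ∈ C, d x ∈ B x)
    (hB2 : ∀ x ∈ C, ∀ x' ∈ C, x ⊆ x' → ∀ e ∈ B x', e ∩ x ∈ B x)
    {I : Type u} [LinearOrder I] [WellFoundedLT I] [Nonempty I] [NoMaxOrder I] (hI : #I < μ)
    (W : Set Λ → Set Λ) (hW : ∀ y : Set Λ, #y < μ → #(↥(W y)) < μ)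
    (hsep : ∀ f : I → Set Λ, (∀ i, f i ∈ C) → Monotone f → (∀ i j, i < j → W (f i) ⊆ f j) →
      ∃ i, ∀ e ∈ B (⋃ i, f i), e ∩ f i = d (⋃ i, f i) ∩ f i → e = d (⋃ i, f i)) :
    ∃ D : Set Λ, IsIneffableBranch μ d D := by
  classical
  by_contra hno
  push Not at hno
  have hK1 : ∀ D : Set Λ, ∃ K : Set (Set Λ), IsClub μ K ∧ ∀ x ∈ K, D ∩ x ≠ d x := by
    intro D
    have := hno D
    unfold IsIneffableBranch IsStat at this
    push Not at this
    obtain ⟨K, hK, hK2⟩ := this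
    exact ⟨K, hK, fun x hx => hK2 x hx⟩
  choose K hK hKd using hK1
  let U : Set Λ → Set Λ → Set (Set Λ) := fun y b =>
    {x | x ∈ C ∧ y ⊆ x ∧ d x ∩ y = b ∧ ∀ e ∈ B x, e ∩ y = b → e = d x}
  let Dd : Set Λ → Set Λ → Set Λ := fun y b => ⋃ x ∈ U y b, d x
  -- coherence
  have hcoh : ∀ y b x x', x ∈ U y b → x' ∈ U y b → x ⊆ x' → d x' ∩ x = d x := by
    intro y b x x' hx hx' hxx
    refine hx.2.2.2 _ (hB2 x hx.1 x' hx'.1 hxx _ (hB1 x' hx'.1)) ?_
    rw [inter_assoc, inter_eq_self_of_subset_right hx.2.1]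
    exact hx'.2.2.1
  have hDd : ∀ y b, (∀ w : Set Λ, #w < μ → ∃ x ∈ U y b, w ⊆ x) → ∀ x ∈ U y b,
      Dd y b ∩ x = d x := by
    intro y b hcof x hx
    apply subset_antisymm
    · rintro a ⟨ha, hax⟩
      simp only [Dd, mem_iUnion] at ha
      obtain ⟨x', hx', hax'⟩ := ha
      obtain ⟨x2, hx2, hsub⟩ := hcof (x ∪ x') (card_union_lt hμ (hC.1 x hx.1) (hC.1 x' hx'.1))
      have e1 := hcoh y b x x2 hx hx2 (subset_union_left.trans hsub)
      have e2 := hcoh y b x' x2 hx' hx2 (subset_union_right.trans hsub)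
      rw [← e2] at hax'
      rw [← e1]
      exact ⟨hax'.1, hax⟩
    · intro a ha
      refine ⟨?_, hd x (hC.1 x hx.1) ha⟩
      simp only [Dd, mem_iUnion]
      exact ⟨x, hx, ha⟩
  have hw : ∀ y b, ∃ w : Set Λ, #w < μ ∧
      (¬ (∀ w : Set Λ, #w < μ → ∃ x ∈ U y b, w ⊆ x) → ∀ x ∈ U y b, ¬ w ⊆ x) := by
    intro y b
    by_cases h : ∀ w : Set Λ, #w < μ → ∃ x ∈ U y b, w ⊆ x
    · exact ⟨∅, by rw [mk_eq_zero]; exact lt_trans aleph0_pos h0, fun h' => absurd h h'⟩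
    · have h' := h
      push Not at h'
      obtain ⟨w, hw1, hw2⟩ := h'
      exact ⟨w, hw1, fun _ => hw2⟩
  choose w hw1 hw2 using hw
  let G : Set Λ → Set (Set Λ) := fun y => {z | #z < μ ∧ (y ∈ C → y ⊆ z ∧ W y ⊆ z ∧
    ∀ b ∈ Traces μ d y, w y b ⊆ z ∧ z ∈ K (Dd y b))}
  have hG : ∀ y : Set Λ, #y < μ → IsClub μ (G y) := by
    intro y hy
    by_cases hyC : y ∈ C
    · have c1 := IsClub.iInter hμ h0 (hT y hyC)
        (K := fun b : Traces μ d y => {z : Set Λ | #z < μ ∧ w y b.1 ⊆ z} ∩ K (Dd y b.1))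
        (fun b => IsClub.inter hμ h0 (isClub_above hμ (hw1 y b.1)) (hK _))
      have c2 := IsClub.inter hμ h0 c1
        (isClub_above hμ (card_union_lt hμ hy (hW y hy)))
      have e : G y = {x : Set Λ | #x < μ ∧ ∀ i : Traces μ d y,
          x ∈ {z : Set Λ | #z < μ ∧ w y i.1 ⊆ z} ∩ K (Dd y i.1)} ∩
          {x : Set Λ | #x < μ ∧ y ∪ W y ⊆ x} := by
        ext z
        constructor
        · rintro ⟨z1, z2⟩
          obtain ⟨z3, z4, z5⟩ := z2 hyC
          exact ⟨⟨z1, fun b => ⟨⟨z1, (z5 b.1 b.2).1⟩, (z5 b.1 b.2).2⟩⟩,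
            ⟨z1, union_subset z3 z4⟩⟩
        · rintro ⟨⟨z1, z2⟩, ⟨_, z3⟩⟩
          exact ⟨z1, fun _ => ⟨subset_union_left.trans z3, subset_union_right.trans z3,
            fun b hb => ⟨(z2 ⟨b, hb⟩).1.2, (z2 ⟨b, hb⟩).2⟩⟩⟩
      rw [e]
      exact c2
    · have e : G y = {x : Set Λ | #x < μ ∧ (∅ : Set Λ) ⊆ x} := by
        ext z
        constructor
        · rintro ⟨z1, _⟩
          exact ⟨z1, empty_subset _⟩
        · rintro ⟨z1, _⟩
          exact ⟨z1, fun h => absurd h hyC⟩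
      rw [e]
      exact isClub_above hμ (by rw [mk_eq_zero]; exact lt_trans aleph0_pos h0)
  obtain ⟨f, hfC, hfG⟩ := exists_chain hμ h0 (I := I)
    (fun i => (mk_set_le _).trans_lt hI) (H := fun _ => C) (fun _ => hC) hG
  have hf1 : ∀ i j, i < j → f i ⊆ f j := fun i j hij => ((hfG i j hij).2 (hfC i)).1
  have hmono : Monotone f := by
    intro i j hij
    rcases hij.eq_or_lt with h | h
    · rw [h]
    · exact hf1 i j h
  obtain ⟨i0, hi0⟩ := hsep f hfC hmono (fun i j hij => ((hfG i j hij).2 (hfC i)).2.1)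
  have hxC : (⋃ i, f i) ∈ C := club_iUnion hC hI hfC hmono
  have hxlt := hC.1 _ hxC
  have hsub : f i0 ⊆ ⋃ i, f i := subset_iUnion f i0
  have hbT : d (⋃ i, f i) ∩ f i0 ∈ Traces μ d (f i0) := ⟨_, hxlt, hsub, rfl⟩
  have hxU : (⋃ i, f i) ∈ U (f i0) (d (⋃ i, f i) ∩ f i0) := ⟨hxC, hsub, rfl, hi0⟩
  obtain ⟨j, hj⟩ := exists_gt i0
  by_cases hcof : ∀ w : Set Λ, #w < μ → ∃ x ∈ U (f i0) (d (⋃ i, f i) ∩ f i0), w ⊆ x
  · have e1 := hDd _ _ hcof _ hxU
    have e2 : (⋃ i, f i) ∈ K (Dd (f i0) (d (⋃ i, f i) ∩ f i0)) :=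
      club_iUnion_tail (hK _) hI i0
        (fun i hi => (((hfG i0 i hi).2 (hfC i0)).2.2 _ hbT).2) hmono ⟨j, hj⟩
    exact hKd _ _ e2 e1
  · refine hw2 _ _ hcof _ hxU ?_
    exact (((hfG i0 j hj).2 (hfC i0)).2.2 _ hbT).1.trans (subset_iUnion f j)

/-- If `e`, `d` are different subsets of the union of a monotone family `f` then some `f i`
separates them. -/
theorem exists_sep {I : Type u} {f : I → Set Λ} {e d : Set Λ} (he : e ⊆ ⋃ i, f i)
    (hd : d ⊆ ⋃ i, f i) (hne : e ≠ d) : ∃ i, e ∩ f i ≠ d ∩ f i := by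
  by_contra hcon
  push Not at hcon
  apply hne
  have h1 : ∀ s : Set Λ, s ⊆ (⋃ i, f i) → s = ⋃ i, s ∩ f i := by
    intro s hs
    rw [← inter_iUnion]
    exact (inter_eq_self_of_subset_left hs).symm
  rw [h1 e he, h1 d hd]
  exact iUnion_congr hcon

/-- From fewer than `θ` candidates, a separating index. -/
theorem sep_of_small {θ : Cardinal.{u}} (hθ : θ.IsRegular) {f : θ.ord.ToType → Set Λ}
    (hm : Monotone f) {B : Set (Set Λ)} (hB : #B < θ) (hsub : ∀ e ∈ B, e ⊆ ⋃ i, f i)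
    {d : Set Λ} (hd : d ⊆ ⋃ i, f i) : ∃ i, ∀ e ∈ B, e ∩ f i = d ∩ f i → e = d := by
  classical
  have hne : Nonempty θ.ord.ToType := by
    rw [← mk_ne_zero_iff, mk_ord_toType]
    exact (lt_of_lt_of_le aleph0_pos hθ.aleph0_le).ne'
  have h1 : ∀ e : B, ∃ i, e.1 ≠ d → e.1 ∩ f i ≠ d ∩ f i := by
    intro e
    by_cases h : e.1 = d
    · exact ⟨Classical.arbitrary _, fun h' => absurd h h'⟩
    · obtain ⟨i, hi⟩ := exists_sep (hsub e.1 e.2) hd h
      exact ⟨i, fun _ => hi⟩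
  choose g hg using h1
  obtain ⟨j, hj⟩ := exists_bound hθ hB g
  refine ⟨j, ?_⟩
  intro e he heq
  by_contra hne
  refine hg ⟨e, he⟩ hne ?_
  have h2 : f (g ⟨e, he⟩) ⊆ f j := hm (hj ⟨e, he⟩).le
  have h3 : ∀ s : Set Λ, s ∩ f (g ⟨e, he⟩) = (s ∩ f j) ∩ f (g ⟨e, he⟩) := by
    intro s
    rw [inter_assoc, inter_eq_self_of_subset_right h2]
  change e ∩ _ = d ∩ _
  rw [h3 e, h3 d, heq]

theorem traces_self {d : Set Λ → Set Λ} (hd : IsList μ d) {x : Set Λ} (hx : #x < μ) :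
    d x ∈ Traces μ d x :=
  ⟨x, hx, Subset.rfl, inter_eq_self_of_subset_left (hd x hx)⟩

theorem traces_sub {d : Set Λ → Set Λ} {x e : Set Λ} (he : e ∈ Traces μ d x) : e ⊆ x := by
  obtain ⟨z, _, _, rfl⟩ := he
  exact inter_subset_right

theorem traces_restrict {d : Set Λ → Set Λ} {x x' e : Set Λ} (hxx : x ⊆ x')
    (he : e ∈ Traces μ d x') : e ∩ x ∈ Traces μ d x := by
  obtain ⟨z, hz, hzx, rfl⟩ := he
  refine ⟨z, hz, hxx.trans hzx, ?_⟩
  rw [inter_assoc, inter_eq_self_of_subset_right hxx]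

/-- The case of fewer than `θ` traces, `θ` regular. -/
theorem narrow_regular (hμ : μ.IsRegular) {θ : Cardinal.{u}} (hθ : θ.IsRegular) (hθμ : θ < μ)
    {d : Set Λ → Set Λ} (hd : IsList μ d) {C : Set (Set Λ)} (hC : IsClub μ C)
    (hT : ∀ y ∈ C, #(Traces μ d y) < θ) : ∃ D : Set Λ, IsIneffableBranch μ d D := by
  have h0 : ℵ₀ < μ := lt_of_le_of_lt hθ.aleph0_le hθμ
  have hne : Nonempty θ.ord.ToType := by
    rw [← mk_ne_zero_iff, mk_ord_toType]
    exact (lt_of_lt_of_le aleph0_pos hθ.aleph0_le).ne'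
  have : NoMaxOrder θ.ord.ToType := noMaxOrder hθ.aleph0_le
  refine branch_of_space hμ h0 hd hC (fun y hy => (hT y hy).trans hθμ) (Traces μ d)
    (fun x hx => traces_self hd (hC.1 x hx)) (fun x _ x' _ hxx e he => traces_restrict hxx he)
    (I := θ.ord.ToType) (by rw [mk_ord_toType]; exact hθμ) (fun _ => ∅)
    (fun _ _ => by rw [mk_eq_zero]; exact lt_trans aleph0_pos h0) ?_
  intro f hf hm _
  have hxC : (⋃ i, f i) ∈ C := club_iUnion hC (by rw [mk_ord_toType]; exact hθμ) hf hm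
  exact sep_of_small hθ hm (hT _ hxC) (fun e he => traces_sub he) (hd _ (hC.1 _ hxC))

end Pool.Agent.Lib.MP_283c84_lc
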