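import Pool.Agent.Lib.MP_283c84_lc.Narrow

/-!
# Narrow lists: the singular case, and the final statement
-/

namespace Pool.Agent.Lib.MP_283c84_lc

open Cardinal Set

universe u

variable {μ : Cardinal.{u}} {Λ : Type u}

/-- Essential traces: attained cofinally often. -/
def Ess (μ : Cardinal.{u}) (d : Set Λ → Set Λ) (y : Set Λ) : Set (Set Λ) :=
  {b | b ⊆ y ∧ ∀ w : Set Λ, #w < μ → ∃ x : Set Λ, #x < μ ∧ w ⊆ x ∧ y ⊆ x ∧ d x ∩ y = b}

theorem ess_sub (h0 : ℵ₀ < μ) {d : Set Λ → Set Λ} {y : Set Λ} : Ess μ d y ⊆ Traces μ d y := by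
  rintro b ⟨_, hb⟩
  obtain ⟨x, hx, _, hyx, h⟩ := hb ∅ (by rw [mk_eq_zero]; exact lt_trans aleph0_pos h0)
  exact ⟨x, hx, hyx, h⟩

theorem ess_bound (hμ : μ.IsRegular) {d : Set Λ → Set Λ} {y : Set Λ}
    (hy : #y < μ) (hT : #(Traces μ d y) < μ) : ∃ w : Set Λ, #w < μ ∧ y ⊆ w ∧
      ∀ x : Set Λ, #x < μ → w ⊆ x → d x ∩ y ∈ Ess μ d y := by
  classical
  have h1 : ∀ b : Traces μ d y, ∃ w : Set Λ, #w < μ ∧
      (b.1 ∉ Ess μ d y → ∀ x : Set Λ, #x < μ → w ⊆ x → y ⊆ x → d x ∩ y ≠ b.1) := by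
    intro b
    by_cases hb : b.1 ∈ Ess μ d y
    · exact ⟨y, hy, fun h => absurd hb h⟩
    · have hb' := hb
      unfold Ess at hb'
      rw [Set.mem_ofPred_eq, not_and] at hb'
      have h2 := hb' (traces_sub b.2)
      push Not at h2
      obtain ⟨w, hw, hw2⟩ := h2
      exact ⟨w, hw, fun _ x hx hwx hyx => hw2 x hx hwx hyx⟩
  choose w hw hw2 using h1
  refine ⟨y ∪ ⋃ b, w b, card_union_lt hμ hy (card_iUnion_lt hμ hT hw), subset_union_left, ?_⟩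
  intro x hx hsub
  have hyx : y ⊆ x := subset_union_left.trans hsub
  by_contra hcon
  exact hw2 ⟨d x ∩ y, ⟨x, hx, hyx, rfl⟩⟩ hcon x hx
    (((subset_iUnion w _).trans subset_union_right).trans hsub) hyx rfl

theorem ess_le (hμ : μ.IsRegular) {d : Set Λ → Set Λ} {y z : Set Λ} (hyz : y ⊆ z)
    (hz : #z < μ) (hT : #(Traces μ d z) < μ) : #(Ess μ d y) ≤ #(Ess μ d z) := by
  obtain ⟨w, hw, hzw, hw2⟩ := ess_bound hμ hz hT
  have h1 : Ess μ d y ⊆ (fun e : Set Λ => e ∩ y) '' (Ess μ d z) := by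
    rintro b ⟨hb1, hb2⟩
    obtain ⟨x, hx, hwx, hyx, h⟩ := hb2 w hw
    refine ⟨d x ∩ z, hw2 x hx hwx, ?_⟩
    change (d x ∩ z) ∩ y = b
    rw [inter_assoc, inter_eq_self_of_subset_right hyz, h]
  exact (mk_le_mk_of_subset h1).trans mk_image_le

/-- A uniform bound for the number of essential traces. -/
theorem ess_uniform (hμ : μ.IsRegular) {ρ : Cardinal.{u}} (h0 : ℵ₀ < μ) (hρ : ρ < μ)
    {d : Set Λ → Set Λ} {C : Set (Set Λ)} (hC : IsClub μ C) (hT : ∀ y ∈ C, #(Traces μ d y) < ρ) :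
    ∃ ν : Cardinal.{u}, ν < ρ ∧ ∀ y ∈ C, #(Ess μ d y) ≤ ν := by
  by_contra hcon
  push Not at hcon
  have h1 : ∀ i : ρ.ord.ToType, ∃ y ∈ C, #(Iio i) < #(Ess μ d y) :=
    fun i => hcon _ (card_Iio_lt ρ i)
  choose y hyC hy using h1
  have hY : #(⋃ i, y i : Set Λ) < μ :=
    card_iUnion_lt hμ (by rw [mk_ord_toType]; exact hρ) (fun i => hC.1 _ (hyC i))
  obtain ⟨z, hz, hYz⟩ := hC.2.1 _ hY
  have hzT := hT z hz
  have hE : #(Ess μ d z) < ρ := (mk_le_mk_of_subset (ess_sub h0)).trans_lt hzT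
  obtain ⟨i, hi⟩ := exists_card_Iio ρ _ hE
  have h2 := ess_le hμ ((subset_iUnion y i).trans hYz) (hC.1 z hz) (hzT.trans hρ)
  exact absurd (hy i) (by rw [hi]; exact not_lt.2 h2)

/-- The case of at most `ν` essential traces. -/
theorem narrow_ess (hμ : μ.IsRegular) {θ ν : Cardinal.{u}} (hθ : θ.IsRegular) (hθμ : θ < μ)
    (hν : Order.succ ν < θ) {d : Set Λ → Set Λ} (hd : IsList μ d) {C : Set (Set Λ)}
    (hC : IsClub μ C) (hT : ∀ y ∈ C, #(Traces μ d y) < μ) (hE : ∀ y ∈ C, #(Ess μ d y) ≤ ν) :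
    ∃ D : Set Λ, IsIneffableBranch μ d D := by
  classical
  have h0 : ℵ₀ < μ := lt_of_le_of_lt hθ.aleph0_le hθμ
  have hνθ : ν < θ := lt_of_le_of_lt (Order.le_succ ν) hν
  have hne : Nonempty θ.ord.ToType := by
    rw [← mk_ne_zero_iff, mk_ord_toType]
    exact (lt_of_lt_of_le aleph0_pos hθ.aleph0_le).ne'
  have : NoMaxOrder θ.ord.ToType := noMaxOrder hθ.aleph0_le
  have hw : ∀ y : Set Λ, ∃ w : Set Λ, (#y < μ → #w < μ) ∧ y ⊆ w ∧ (y ∈ C →
      ∀ x : Set Λ, #x < μ → w ⊆ x → d x ∩ y ∈ Ess μ d y) := by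
    intro y
    by_cases hy : y ∈ C
    · obtain ⟨w, h1, h2, h3⟩ := ess_bound hμ (hC.1 y hy) (hT y hy)
      exact ⟨w, fun _ => h1, h2, fun _ => h3⟩
    · exact ⟨y, id, Subset.rfl, fun h => absurd h hy⟩
  choose W hW1 hW2 hW3 using hw
  refine branch_of_space hμ h0 hd hC hT
    (fun x => {e | e ⊆ x ∧ ∀ c ∈ C, W c ⊆ x → e ∩ c ∈ Ess μ d c}) ?_ ?_
    (I := θ.ord.ToType) (by rw [mk_ord_toType]; exact hθμ) W (fun y hy => hW1 y hy) ?_
  · intro x hx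
    exact ⟨hd x (hC.1 x hx), fun c hc hcx => hW3 c hc x (hC.1 x hx) hcx⟩
  · intro x hx x' hx' hxx e he
    refine ⟨inter_subset_right, ?_⟩
    intro c hc hcx
    rw [inter_assoc, inter_eq_self_of_subset_right ((hW2 c).trans hcx)]
    exact he.2 c hc (hcx.trans hxx)
  · intro f hf hm hWf
    have hxC : (⋃ i, f i) ∈ C := club_iUnion hC (by rw [mk_ord_toType]; exact hθμ) hf hm
    have hres : ∀ e ∈ {e | e ⊆ (⋃ i, f i) ∧ ∀ c ∈ C, W c ⊆ (⋃ i, f i) → e ∩ c ∈ Ess μ d c},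
        ∀ i, e ∩ f i ∈ Ess μ d (f i) := by
      intro e he i
      obtain ⟨j, hj⟩ := exists_gt i
      exact he.2 _ (hf i) ((hWf i j hj).trans (subset_iUnion f j))
    refine sep_of_small hθ hm (lt_of_le_of_lt ?_ hνθ) (fun e he => he.1) (hd _ (hC.1 _ hxC))
    by_contra hcon
    rw [not_le] at hcon
    obtain ⟨B1, hB1, hB1c⟩ := le_mk_iff_exists_subset.1 (Order.succ_le_of_lt hcon)
    have hpair : ∀ p : B1 × B1, ∃ i, p.1.1 ≠ p.2.1 → p.1.1 ∩ f i ≠ p.2.1 ∩ f i := by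
      intro p
      by_cases h : p.1.1 = p.2.1
      · exact ⟨Classical.arbitrary _, fun h' => absurd h h'⟩
      · obtain ⟨i, hi⟩ := exists_sep (hB1 p.1.2).1 (hB1 p.2.2).1 h
        exact ⟨i, fun _ => hi⟩
    choose g hg using hpair
    obtain ⟨j, hj⟩ := exists_bound hθ (ι := B1 × B1) (by
      rw [← mul_def]
      exact mul_lt_of_lt hθ.aleph0_le (by rw [hB1c]; exact hν) (by rw [hB1c]; exact hν)) g
    have hinj : InjOn (fun e : Set Λ => e ∩ f j) B1 := by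
      intro e he e' he' heq
      by_contra hne2
      have h2 : f (g (⟨e, he⟩, ⟨e', he'⟩)) ⊆ f j := hm (hj _).le
      refine hg (⟨e, he⟩, ⟨e', he'⟩) hne2 ?_
      have h3 : ∀ s : Set Λ, s ∩ f (g (⟨e, he⟩, ⟨e', he'⟩)) =
          (s ∩ f j) ∩ f (g (⟨e, he⟩, ⟨e', he'⟩)) := by
        intro s
        rw [inter_assoc, inter_eq_self_of_subset_right h2]
      change e ∩ _ = e' ∩ _
      rw [h3 e, h3 e']
      simp only at heq
      rw [heq]
    have h4 : #((fun e : Set Λ => e ∩ f j) '' B1) = #B1 := mk_image_eq_of_injOn _ _ hinj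
    have h5 : (fun e : Set Λ => e ∩ f j) '' B1 ⊆ Ess μ d (f j) := by
      rintro _ ⟨e, he, rfl⟩
      exact hres e (hB1 he) j
    have h6 := (mk_le_mk_of_subset h5).trans (hE _ (hf j))
    rw [h4, hB1c] at h6
    exact absurd h6 (not_le.2 (Order.lt_succ ν))

/-- **Narrow lists have ineffable branches.** -/
theorem narrow (hμ : μ.IsRegular) {ρ : Cardinal.{u}} (hρ : ℵ₀ ≤ ρ) (hρμ : ρ < μ)
    {d : Set Λ → Set Λ} (hd : IsList μ d) (hT : HasWidth μ ρ d) :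
    ∃ D : Set Λ, IsIneffableBranch μ d D := by
  obtain ⟨C, hC, hT⟩ := hT
  by_cases hreg : ρ.IsRegular
  · exact narrow_regular hμ hreg hρμ hd hC hT
  · have h0 : ℵ₀ < μ := lt_of_le_of_lt hρ hρμ
    obtain ⟨ν, hν, hE⟩ := ess_uniform hμ h0 hρμ hC hT
    have hρ1 : ℵ₀ < ρ := lt_of_le_of_ne hρ (fun h => hreg (h ▸ isRegular_aleph0))
    have hsucc : ∀ τ : Cardinal.{u}, τ < ρ → Order.succ τ < ρ := by
      intro τ hτ
      refine lt_of_le_of_ne (Order.succ_le_of_lt hτ) ?_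
      intro h
      rcases lt_or_ge τ ℵ₀ with h1 | h1
      · have h2 : Order.succ τ ≤ ℵ₀ := Order.succ_le_of_lt h1
        rw [h] at h2
        exact absurd h2 (not_le.2 hρ1)
      · exact hreg (h ▸ isRegular_succ h1)
    have h2 : max (Order.succ ν) ℵ₀ < ρ := max_lt (hsucc ν hν) hρ1
    exact narrow_ess hμ (θ := Order.succ (max (Order.succ ν) ℵ₀)) (ν := ν)
      (isRegular_succ (le_max_right _ _)) ((hsucc _ h2).trans hρμ)
      (lt_of_le_of_lt (le_max_left _ _) (Order.lt_succ _)) hd hC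
      (fun y hy => (hT y hy).trans hρμ) hE

end Pool.Agent.Lib.MP_283c84_lc
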