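import Pool.Agent.Lib.MP_283c84_lc.Narrow

/-!
# Stepping up: from `ITP(μ, μ)` and ITP at `μ⁺` to ITP at `μ` for lists with few branches
-/

namespace Pool.Agent.Lib.MP_283c84_lc

open Cardinal Set

universe u

variable {μ : Cardinal.{u}} {Λ : Type u}

/-- The cofinal branches of the list `d` through `Y`: the sets `B ⊆ Y` such that for each
`y ⊆ Y` of size `< μ` the set `B ∩ y` is a trace of `d` on `y`. -/
def Branches (μ : Cardinal.{u}) {Λ : Type u} (d : Set Λ → Set Λ) (Y : Set Λ) : Set (Set Λ) :=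
  {B | B ⊆ Y ∧ ∀ y : Set Λ, y ⊆ Y → #y < μ → B ∩ y ∈ Traces μ d y}

/-- The list `d` has few branches: for club many `Y` of size at most `μ` there are at most `μ`
cofinal branches through `Y`. -/
def FewBranches (μ : Cardinal.{u}) {Λ : Type u} (d : Set Λ → Set Λ) : Prop :=
  ∃ G : Set (Set Λ), IsClub (Order.succ μ) G ∧ ∀ Y ∈ G, #(Branches μ d Y) ≤ μ

/-- `C` is cofinal in `P_μ X`. -/
def CofIn (μ : Cardinal.{u}) (C : Set (Set Λ)) (X : Set Λ) : Prop :=
  ∀ x : Set Λ, x ⊆ X → #x < μ → ∃ c ∈ C, x ⊆ c ∧ c ⊆ X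

theorem card_union_eq (hμ : ℵ₀ ≤ μ) {s t : Set Λ} (hs : #s ≤ μ) (ht : #t = μ) :
    #(s ∪ t : Set Λ) = μ := by
  apply le_antisymm
  · exact (mk_union_le s t).trans (add_le_of_le hμ hs ht.le)
  · rw [← ht]
    exact mk_le_mk_of_subset subset_union_right

/-- The good sets form a club. -/
theorem good_club (hμ : μ.IsRegular) (h0 : ℵ₀ < μ) (hΛ : μ ≤ #Λ) {C : Set (Set Λ)}
    (hC : IsClub μ C) : IsClub (Order.succ μ) {X : Set Λ | #X = μ ∧ CofIn μ C X} := by
  classical
  refine ⟨fun X hX => by rw [hX.1]; exact Order.lt_succ μ, ?_, ?_⟩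
  · intro X0 hX0
    have hX0' : #X0 ≤ μ := Order.lt_succ_iff.1 hX0
    obtain ⟨Y, hY⟩ := le_mk_iff_exists_set.1 hΛ
    have hX1 : #(X0 ∪ Y : Set Λ) = μ := card_union_eq hμ.aleph0_le hX0' hY
    have he : Nonempty (μ.ord.ToType ≃ (X0 ∪ Y : Set Λ)) := by
      rw [← Cardinal.eq, mk_ord_toType, hX1]
    obtain ⟨e⟩ := he
    obtain ⟨f, hfH, hfG⟩ := exists_chain hμ h0 (I := μ.ord.ToType) (fun i => card_Iio_lt μ i)
      (H := fun i => C ∩ {x : Set Λ | #x < μ ∧ {(e i).1} ⊆ x})
      (fun i => IsClub.inter hμ h0 hC (isClub_above hμ (by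
        rw [mk_singleton]
        exact lt_trans one_lt_aleph0 h0)))
      (G := fun y => {z : Set Λ | #z < μ ∧ y ⊆ z}) (fun y hy => isClub_above hμ hy)
    have hmono : Monotone f := by
      intro i j hij
      rcases hij.eq_or_lt with h | h
      · rw [h]
      · exact (hfG i j h).2
    have hsub : X0 ∪ Y ⊆ ⋃ i, f i := by
      intro a ha
      have h1 := (hfH (e.symm ⟨a, ha⟩)).2.2
      refine mem_iUnion.2 ⟨e.symm ⟨a, ha⟩, h1 ?_⟩
      simp
    refine ⟨⋃ i, f i, ⟨?_, ?_⟩, subset_union_left.trans hsub⟩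
    · apply le_antisymm
      · refine (mk_iUnion_le f).trans ?_
        rw [mk_ord_toType]
        refine (mul_le_mul_right (ciSup_le' fun i => (hC.1 _ (hfH i).1).le) μ).trans ?_
        rw [mul_eq_self hμ.aleph0_le]
      · exact hX1.ge.trans (mk_le_mk_of_subset hsub)
    · intro x hx hxμ
      have h1 : ∀ a : x, ∃ i, a.1 ∈ f i := fun a => mem_iUnion.1 (hx a.2)
      choose g hg using h1
      obtain ⟨j, hj⟩ := exists_bound hμ hxμ g
      exact ⟨f j, (hfH j).1, fun a ha => hmono (hj ⟨a, ha⟩).le (hg ⟨a, ha⟩),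
        subset_iUnion f j⟩
  · intro D hD hne hch hlt
    obtain ⟨Z0, hZ0⟩ := hne
    refine ⟨?_, ?_⟩
    · apply le_antisymm
      · refine (mk_sUnion_le D).trans ?_
        refine (mul_le_mul' (Order.lt_succ_iff.1 hlt)
          (ciSup_le' fun Z : D => (hD Z.2).1.le)).trans ?_
        rw [mul_eq_self hμ.aleph0_le]
      · rw [← (hD hZ0).1]
        exact mk_le_mk_of_subset (subset_sUnion_of_mem hZ0)
    · intro x hx hxμ
      rcases x.eq_empty_or_nonempty with hx0 | hx0
      · obtain ⟨c, hc, h1, h2⟩ := (hD hZ0).2 x (by rw [hx0]; exact empty_subset _) hxμ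
        exact ⟨c, hc, h1, h2.trans (subset_sUnion_of_mem hZ0)⟩
      · have h1 : ∀ a : x, ∃ Z ∈ D, a.1 ∈ Z := fun a => hx a.2
        choose Z hZD hZ using h1
        have h2 : ∀ (a : x) (y : Set Λ), ∃ c : Set Λ, #y < μ →
            c ∈ C ∧ y ∩ Z a ⊆ c ∧ c ⊆ Z a := by
          intro a y
          by_cases hy : #y < μ
          · obtain ⟨c, hc, hc1, hc2⟩ := (hD (hZD a)).2 (y ∩ Z a) inter_subset_right
              ((mk_le_mk_of_subset inter_subset_left).trans_lt hy)
            exact ⟨c, fun _ => ⟨hc, hc1, hc2⟩⟩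
          · exact ⟨∅, fun h => absurd h hy⟩
        choose k hk using h2
        let s : ℕ → Set Λ := fun n => Nat.rec (motive := fun _ => Set Λ) x
          (fun _ y => y ∪ ⋃ a, k a y) n
        have ss : ∀ n, s (n+1) = s n ∪ ⋃ a, k a (s n) := fun _ => rfl
        have hs : ∀ n, #(↥(s n)) < μ := by
          intro n
          induction n with
          | zero => exact hxμ
          | succ n ih =>
            rw [ss]
            exact card_union_lt hμ ih
              (card_iUnion_lt hμ hxμ (fun a => hC.1 _ (hk a (s n) ih).1))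
        have hsZ : ∀ n, s n ⊆ ⋃ a, Z a := by
          intro n
          induction n with
          | zero => exact fun a ha => mem_iUnion.2 ⟨⟨a, ha⟩, hZ ⟨a, ha⟩⟩
          | succ n ih =>
            rw [ss]
            refine union_subset ih (iUnion_subset fun a => ?_)
            exact ((hk a (s n) (hs n)).2.2).trans (subset_iUnion Z a)
        have hy : ∀ a, (⋃ n, s n) ∩ Z a ∈ C := by
          intro a
          have h3 : (⋃ n, s n) ∩ Z a = ⋃ n, k a (s n) := by
            apply subset_antisymm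
            · rw [iUnion_inter]
              apply iUnion_subset
              intro n
              exact ((hk a (s n) (hs n)).2.1).trans (subset_iUnion (fun n => k a (s n)) n)
            · apply iUnion_subset
              intro n
              refine subset_inter ?_ (hk a (s n) (hs n)).2.2
              refine Subset.trans ?_ (subset_iUnion s (n+1))
              rw [ss]
              exact (subset_iUnion (fun a => k a (s n)) a).trans subset_union_right
          rw [h3]
          refine club_nat h0 hC (fun n => (hk a (s n) (hs n)).1) ?_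
          refine monotone_nat_of_le_succ ?_
          intro n
          refine Subset.trans ?_ (hk a (s (n+1)) (hs (n+1))).2.1
          refine subset_inter ?_ (hk a (s n) (hs n)).2.2
          rw [ss]
          exact (subset_iUnion (fun a => k a (s n)) a).trans subset_union_right
        have hall : (⋃ n, s n) = ⋃₀ (range fun a : x => (⋃ n, s n) ∩ Z a) := by
          rw [sUnion_range, ← inter_iUnion]
          refine (inter_eq_self_of_subset_left ?_).symm
          exact iUnion_subset hsZ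
        refine ⟨⋃ n, s n, ?_, subset_iUnion s 0, ?_⟩
        · rw [hall]
          refine hC.2.2 _ ?_ ?_ ?_ (mk_range_le.trans_lt hxμ)
          · rintro _ ⟨a, rfl⟩
            exact hy a
          · obtain ⟨a, ha⟩ := hx0
            exact ⟨_, ⟨a, ha⟩, rfl⟩
          · rintro _ ⟨a, rfl⟩ _ ⟨b, rfl⟩ _
            rcases hch.total (hZD a) (hZD b) with h | h
            · exact Or.inl (inter_subset_inter_right _ h)
            · exact Or.inr (inter_subset_inter_right _ h)
        · refine (iUnion_subset hsZ).trans (iUnion_subset fun a => ?_)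
          exact subset_sUnion_of_mem (hZD a)

/-- The trace of a club on a set for which it is cofinal. -/
theorem sub_club {C : Set (Set Λ)} (hC : IsClub μ C) {X : Set Λ} (hX : CofIn μ C X) :
    IsClub μ {y : Set X | Subtype.val '' y ∈ C} := by
  refine ⟨?_, ?_, ?_⟩
  · intro y hy
    have h1 := hC.1 _ hy
    rwa [mk_image_eq Subtype.val_injective] at h1
  · intro x hx
    obtain ⟨c, hc, h1, h2⟩ := hX (Subtype.val '' x) (by
      rintro _ ⟨a, _, rfl⟩
      exact a.2) (by rwa [mk_image_eq Subtype.val_injective])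
    refine ⟨Subtype.val ⁻¹' c, ?_, ?_⟩
    · change Subtype.val '' (Subtype.val ⁻¹' c) ∈ C
      rw [image_preimage_eq_of_subset (by rw [Subtype.range_coe]; exact h2)]
      exact hc
    · intro a ha
      exact h1 ⟨a, ha, rfl⟩
  · intro D hD hne hch hlt
    change Subtype.val '' (⋃₀ D) ∈ C
    have h1 : (Subtype.val '' (⋃₀ D) : Set Λ) =
        ⋃₀ ((fun y : Set X => (Subtype.val '' y : Set Λ)) '' D) := by
      rw [image_sUnion]
    rw [h1]
    refine hC.2.2 _ ?_ (hne.image _) ?_ (mk_image_le.trans_lt hlt)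
    · rintro _ ⟨y, hy, rfl⟩
      exact hD hy
    · rintro _ ⟨y, hy, rfl⟩ _ ⟨z, hz, rfl⟩ _
      rcases hch.total hy hz with h | h
      · exact Or.inl (image_mono h)
      · exact Or.inr (image_mono h)

/-- `ITP(μ, μ)` gives a branch on each good set. -/
theorem branch_on_good (hITP : ITP.{u} μ μ) {d : Set Λ → Set Λ} (hd : IsList μ d)
    {C : Set (Set Λ)} (hC : IsClub μ C) (hT : ∀ y ∈ C, #(Traces μ d y) < μ) {X : Set Λ}
    (hX : #X = μ) (hCX : CofIn μ C X) :
    ∃ D : Set Λ, D ⊆ X ∧ ∀ K : Set (Set Λ), IsClub μ K → CofIn μ K X →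
      ∃ x ∈ K, x ⊆ X ∧ D ∩ x = d x := by
  have hval : ∀ s : Set X, (Subtype.val '' s : Set Λ) ⊆ X := by
    rintro s _ ⟨a, _, rfl⟩
    exact a.2
  have hcard : ∀ s : Set X, #(Subtype.val '' s : Set Λ) = #s :=
    fun s => mk_image_eq Subtype.val_injective
  have hlist : IsList μ (fun x : Set X => Subtype.val ⁻¹' (d (Subtype.val '' x))) := by
    intro x hx a ha
    have h1 := hd (Subtype.val '' x) (by rwa [hcard]) ha
    obtain ⟨b, hb, hba⟩ := h1
    rwa [← Subtype.val_injective hba]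
  have himg : ∀ x : Set X, #x < μ →
      Subtype.val '' (Subtype.val ⁻¹' (d (Subtype.val '' x)) : Set X) = d (Subtype.val '' x) := by
    intro x hx
    refine image_preimage_eq_of_subset ?_
    rw [Subtype.range_coe]
    exact (hd _ (by rwa [hcard])).trans (hval x)
  have hwidth : HasWidth μ μ (fun x : Set X => Subtype.val ⁻¹' (d (Subtype.val '' x))) := by
    refine ⟨_, sub_club hC hCX, ?_⟩
    intro y hy
    refine lt_of_le_of_lt ?_ (hT _ hy)
    have hinj : Function.Injective (fun z : Set X => (Subtype.val '' z : Set Λ)) :=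
      image_injective.2 Subtype.val_injective
    rw [← mk_image_eq hinj]
    refine mk_le_mk_of_subset ?_
    rintro _ ⟨z, ⟨x, hx, hyx, rfl⟩, rfl⟩
    refine ⟨Subtype.val '' x, by rwa [hcard], image_mono hyx, ?_⟩
    change d (Subtype.val '' x) ∩ Subtype.val '' y =
      Subtype.val '' (Subtype.val ⁻¹' (d (Subtype.val '' x)) ∩ y)
    rw [image_inter Subtype.val_injective, himg x hx]
  obtain ⟨D', hD'⟩ := hITP X hX _ hlist hwidth
  refine ⟨Subtype.val '' D', hval D', ?_⟩
  intro K hK hKX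
  obtain ⟨x, hx, hx2⟩ := hD' _ (sub_club hK hKX)
  have hxK : Subtype.val '' x ∈ K := hx
  have hxμ : #x < μ := by rw [← hcard]; exact hK.1 _ hxK
  refine ⟨Subtype.val '' x, hxK, hval x, ?_⟩
  rw [← image_inter Subtype.val_injective, ← himg x hxμ]
  exact congrArg _ hx2

/-- **The step up.** -/
theorem stepUp (hμ : μ.IsRegular) (h0 : ℵ₀ < μ) (h1 : ITP.{u} μ μ)
    (h2 : ITPAt.{u} (Order.succ μ)) (hΛ : μ ≤ #Λ) {d : Set Λ → Set Λ} (hd : IsList μ d)
    (hT : HasWidth μ μ d) (hF : FewBranches μ d) : ∃ D : Set Λ, IsIneffableBranch μ d D := by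
  classical
  rcases hΛ.eq_or_lt with hΛ1 | hΛ1
  · exact h1 Λ hΛ1.symm d hd hT
  obtain ⟨C, hC, hT⟩ := hT
  obtain ⟨G, hG, hGB⟩ := hF
  have hbr : ∀ X : Set Λ, ∃ D : Set Λ, D ⊆ X ∧ (#X = μ ∧ CofIn μ C X →
      ∀ K : Set (Set Λ), IsClub μ K → CofIn μ K X → ∃ x ∈ K, x ⊆ X ∧ D ∩ x = d x) ∧
      (¬ (#X = μ ∧ CofIn μ C X) → D = ∅) := by
    intro X
    by_cases hX : #X = μ ∧ CofIn μ C X
    · obtain ⟨D, hD1, hD2⟩ := branch_on_good h1 hd hC hT hX.1 hX.2
      exact ⟨D, hD1, fun _ => hD2, fun h => absurd hX h⟩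
    · exact ⟨∅, empty_subset _, fun h => absurd h hX, fun _ => rfl⟩
  choose E hE1 hE2 hE3 using hbr
  have hwidth : HasWidth (Order.succ μ) (Order.succ μ) E := by
    refine ⟨G, hG, ?_⟩
    intro Y hY
    have hsub : Traces (Order.succ μ) E Y ⊆ insert ∅ (Branches μ d Y) := by
      rintro _ ⟨X, hX, hYX, rfl⟩
      by_cases hgood : #X = μ ∧ CofIn μ C X
      · right
        refine ⟨inter_subset_right, ?_⟩
        intro y hy hyμ
        obtain ⟨x, hx, hxX, hx2⟩ := hE2 X hgood {x : Set Λ | #x < μ ∧ y ⊆ x}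
          (isClub_above hμ hyμ) (by
            intro x hx hxμ
            exact ⟨x ∪ y, ⟨card_union_lt hμ hxμ hyμ, subset_union_right⟩, subset_union_left,
              union_subset hx (hy.trans hYX)⟩)
        refine ⟨x, hx.1, hx.2, ?_⟩
        rw [← hx2, inter_assoc, inter_assoc, inter_eq_self_of_subset_right hx.2,
          inter_eq_self_of_subset_right hy]
      · left
        rw [hE3 X hgood, empty_inter]
    refine lt_of_le_of_lt (mk_le_mk_of_subset hsub) ?_
    refine lt_of_le_of_lt mk_insert_le ?_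
    refine lt_of_le_of_lt (add_le_add_left (hGB Y hY) 1) ?_
    rw [add_one_eq hμ.aleph0_le]
    exact Order.lt_succ μ
  obtain ⟨D, hD⟩ := h2 #Λ (Order.succ_le_of_lt hΛ1) Λ rfl E (fun X _ => hE1 X) hwidth
  refine ⟨D, ?_⟩
  intro K hK
  have hCK := IsClub.inter hμ h0 hC hK
  obtain ⟨X, hX, hX2⟩ := hD _ (good_club hμ h0 hΛ hCK)
  have hXC : CofIn μ C X := by
    intro x hx hxμ
    obtain ⟨c, hc, h3, h4⟩ := hX.2 x hx hxμ
    exact ⟨c, hc.1, h3, h4⟩
  have hXK : CofIn μ K X := by
    intro x hx hxμ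
    obtain ⟨c, hc, h3, h4⟩ := hX.2 x hx hxμ
    exact ⟨c, hc.2, h3, h4⟩
  obtain ⟨x, hx, hxX, hx2⟩ := hE2 X ⟨hX.1, hXC⟩ K hK hXK
  refine ⟨x, hx, ?_⟩
  change D ∩ x = d x
  have hX3 : D ∩ X = E X := hX2
  rw [← hx2, ← hX3, inter_assoc, inter_eq_self_of_subset_right hxX]

end Pool.Agent.Lib.MP_283c84_lc
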