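import Pool.Agent.Lib.MP_283c84_lc.Sing

/-!
# Lists whose traces lie in the union of few narrow trees

Let `T i` (`i : ι`, `#ι < μ`) be trees of subsets: on the members `y` of a club `C` the level
`T i y` has fewer than `ρ i < μ` members, and the levels restrict to each other.  If each value
`d x` has, on each `y ∈ C` with `y ⊆ x`, a trace in some `T i y`, then on a club `d x` is a
restriction of one of fewer than `μ` subsets of `Λ`.
-/

namespace Pool.Agent.Lib.MP_283c84_lc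

open Cardinal Set

universe u

variable {μ : Cardinal.{u}} {Λ : Type u}

/-- A subtree on the club `C`: the levels restrict to each other. -/
def IsSubtree (C : Set (Set Λ)) (T : Set Λ → Set (Set Λ)) : Prop :=
  ∀ y ∈ C, ∀ y' ∈ C, y ⊆ y' → ∀ b ∈ T y', b ∩ y ∈ T y

/-- The branches of a subtree. -/
def Br (C : Set (Set Λ)) (T : Set Λ → Set (Set Λ)) : Set (Set Λ) :=
  {D | ∀ y ∈ C, D ∩ y ∈ T y}

theorem empty_lt (h0 : ℵ₀ < μ) : #(∅ : Set Λ) < μ := by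
  rw [mk_eq_zero]
  exact lt_trans aleph0_pos h0

theorem inter_of_sub {a y z : Set Λ} (h : y ⊆ z) : (a ∩ z) ∩ y = a ∩ y := by
  rw [inter_assoc, inter_eq_self_of_subset_right h]

/-- A node of a narrow subtree with extensions on all larger levels lies on a branch. -/
theorem exists_branch (hμ : μ.IsRegular) (h0 : ℵ₀ < μ) {ρ : Cardinal.{u}} (hρ : ρ < μ)
    {C : Set (Set Λ)} (hC : IsClub μ C) {T : Set Λ → Set (Set Λ)} (hT : IsSubtree C T)
    (hw : ∀ y ∈ C, #(T y) < ρ) {y0 b : Set Λ} (hy0 : y0 ∈ C)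
    (hb : ∀ y ∈ C, y0 ⊆ y → ∃ e ∈ T y, e ∩ y0 = b) :
    ∃ D ∈ Br C T, D ∩ y0 = b := by
  classical
  have h1 : ∀ x : Set Λ, ∃ e : Set Λ, (x ∈ C ∧ y0 ⊆ x → e ∈ T x ∧ e ∩ y0 = b) := by
    intro x
    by_cases h : x ∈ C ∧ y0 ⊆ x
    · obtain ⟨e, he, he2⟩ := hb x h.1 h.2
      exact ⟨e, fun _ => ⟨he, he2⟩⟩
    · exact ⟨∅, fun h' => absurd h' h⟩
  choose g hg using h1
  let d : Set Λ → Set Λ := fun x => if x ∈ C ∧ y0 ⊆ x then g x ∩ x else ∅
  have hd1 : ∀ x, x ∈ C → y0 ⊆ x → d x = g x ∩ x := fun x hx hx2 => if_pos ⟨hx, hx2⟩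
  have hd2 : ∀ x, ¬ (x ∈ C ∧ y0 ⊆ x) → d x = ∅ := fun x hx => if_neg hx
  have hdl : IsList μ d := by
    intro x _
    by_cases h : x ∈ C ∧ y0 ⊆ x
    · rw [hd1 x h.1 h.2]
      exact inter_subset_right
    · rw [hd2 x h]
      exact empty_subset _
  have hdT : ∀ x, x ∈ C → y0 ⊆ x → d x ∈ T x := by
    intro x hx hx2
    rw [hd1 x hx hx2]
    exact hT x hx x hx Subset.rfl _ (hg x ⟨hx, hx2⟩).1
  have hK : IsClub μ (C ∩ {x : Set Λ | #x < μ ∧ y0 ⊆ x}) :=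
    IsClub.inter hμ h0 hC (isClub_above hμ (hC.1 y0 hy0))
  have hwd : HasWidth μ (max ρ ℵ₀) d := by
    refine ⟨_, hK, ?_⟩
    rintro y ⟨hy, _, hy2⟩
    have hsub : Traces μ d y ⊆ insert ∅ (T y) := by
      rintro _ ⟨x, _, hyx, rfl⟩
      by_cases h : x ∈ C
      · right
        exact hT y hy x h hyx _ (hdT x h (hy2.trans hyx))
      · left
        rw [hd2 x (fun h' => h h'.1), empty_inter]
    refine (mk_le_mk_of_subset hsub).trans_lt ?_
    refine (mk_insert_le).trans_lt ?_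
    exact add_lt_of_lt (le_max_right _ _) ((hw y hy).trans_le (le_max_left _ _))
      (one_lt_aleph0.trans_le (le_max_right _ _))
  obtain ⟨D, hD⟩ := narrow hμ (le_max_right ρ ℵ₀) (max_lt hρ h0) hdl hwd
  have hmain : ∀ y ∈ C, D ∩ y ∈ T y ∧ D ∩ y0 = b := by
    intro y hy
    have hK2 := IsClub.inter hμ h0 hC
      (isClub_above hμ (card_union_lt hμ (hC.1 y hy) (hC.1 y0 hy0)))
    obtain ⟨x, ⟨hx, _, hx2⟩, hxD⟩ := hD _ hK2
    have hyx : y ⊆ x := subset_union_left.trans hx2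
    have hy0x : y0 ⊆ x := subset_union_right.trans hx2
    change D ∩ x = d x at hxD
    refine ⟨?_, ?_⟩
    · rw [← inter_of_sub (a := D) hyx, hxD]
      exact hT y hy x hx hyx _ (hdT x hx hy0x)
    · rw [← inter_of_sub (a := D) hy0x, hxD, hd1 x hx hy0x, inter_of_sub hy0x]
      exact (hg x ⟨hx, hy0x⟩).2
  exact ⟨D, fun y hy => (hmain y hy).1, (hmain y0 hy0).2⟩

/-- Fewer than `μ` sets are separated by a member of `C`. -/
theorem exists_sep_all (hμ : μ.IsRegular) {C : Set (Set Λ)} (hC : IsClub μ C)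
    {E : Set (Set Λ)} (hE : #E < μ) :
    ∃ y ∈ C, ∀ a ∈ E, ∀ b ∈ E, a ∩ y = b ∩ y → a = b := by
  classical
  by_cases hne : Nonempty Λ
  · have h1 : ∀ p : E × E, ∃ t : Λ, p.1.1 ≠ p.2.1 → ¬ (t ∈ p.1.1 ↔ t ∈ p.2.1) := by
      intro p
      by_cases h : p.1.1 = p.2.1
      · exact ⟨Classical.arbitrary _, fun h' => absurd h h'⟩
      · have h2 : ¬ ∀ t, t ∈ p.1.1 ↔ t ∈ p.2.1 := fun h' => h (Set.ext h')
        push Not at h2
        obtain ⟨t, ht⟩ := h2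
        refine ⟨t, fun _ h3 => ?_⟩
        rcases ht with ⟨h4, h5⟩ | ⟨h4, h5⟩
        · exact h5 (h3.1 h4)
        · exact h4 (h3.2 h5)
    choose t ht using h1
    have h2 : #(range t) < μ := by
      refine mk_range_le.trans_lt ?_
      rw [← mul_def]
      exact mul_lt_of_lt hμ.aleph0_le hE hE
    obtain ⟨y, hy, hty⟩ := hC.2.1 _ h2
    refine ⟨y, hy, ?_⟩
    intro a ha b hb hab
    by_contra hcon
    refine ht (⟨a, ha⟩, ⟨b, hb⟩) hcon ?_
    have h3 : t (⟨a, ha⟩, ⟨b, hb⟩) ∈ y := hty ⟨_, rfl⟩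
    constructor
    · intro h4
      have h5 : t (⟨a, ha⟩, ⟨b, hb⟩) ∈ a ∩ y := ⟨h4, h3⟩
      rw [hab] at h5
      exact h5.1
    · intro h4
      have h5 : t (⟨a, ha⟩, ⟨b, hb⟩) ∈ b ∩ y := ⟨h4, h3⟩
      rw [← hab] at h5
      exact h5.1
  · obtain ⟨y, hy, _⟩ := hC.2.1 ∅ (by
      rw [mk_eq_zero]
      exact lt_of_lt_of_le aleph0_pos hμ.aleph0_le)
    refine ⟨y, hy, fun a _ b _ _ => ?_⟩
    ext t
    exact absurd ⟨t⟩ hne

/-- A narrow subtree has few branches. -/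
theorem card_Br (hμ : μ.IsRegular) {ρ : Cardinal.{u}} (hρ : ρ < μ)
    {C : Set (Set Λ)} (hC : IsClub μ C) {T : Set Λ → Set (Set Λ)}
    (hw : ∀ y ∈ C, #(T y) < ρ) : #(Br C T) < ρ := by
  by_contra hcon
  rw [not_lt] at hcon
  obtain ⟨E, hE, hEc⟩ := le_mk_iff_exists_subset.1 hcon
  obtain ⟨y, hy, hsep⟩ := exists_sep_all hμ hC (E := E) (by rw [hEc]; exact hρ)
  have h1 : InjOn (fun D : Set Λ => D ∩ y) E := fun a ha b hb hab => hsep a ha b hb hab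
  have h2 : (fun D : Set Λ => D ∩ y) '' E ⊆ T y := by
    rintro _ ⟨D, hD, rfl⟩
    exact hE hD y hy
  have h3 := mk_le_mk_of_subset h2
  rw [mk_image_eq_of_injOn _ _ h1, hEc] at h3
  exact absurd (hw y hy) (not_lt.2 h3)

/-- Fewer than `μ` branches in all. -/
theorem card_branches (hμ : μ.IsRegular) {ι : Type u} (hι : #ι < μ)
    {ρ : ι → Cardinal.{u}} (hρ : ∀ i, ρ i < μ) {C : Set (Set Λ)} (hC : IsClub μ C)
    {T : ι → Set Λ → Set (Set Λ)} (hw : ∀ i, ∀ y ∈ C, #(T i y) < ρ i) :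
    #(⋃ i, Br C (T i) : Set (Set Λ)) < μ :=
  (card_iUnion_lt_iff_forall_of_isRegular hμ hι).2
    (fun i => (card_Br hμ (hρ i) hC (hw i)).trans (hρ i))

/-- **Unions of narrow trees.** On a club, `d x` is a restriction of a branch of some `T i`. -/
theorem union_of_narrow (hμ : μ.IsRegular) (h0 : ℵ₀ < μ) {ι : Type u} (hι : #ι < μ)
    {ρ : ι → Cardinal.{u}} (hρ : ∀ i, ρ i < μ) {C : Set (Set Λ)} (hC : IsClub μ C)
    {T : ι → Set Λ → Set (Set Λ)} (hT : ∀ i, IsSubtree C (T i))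
    (hw : ∀ i, ∀ y ∈ C, #(T i y) < ρ i) {d : Set Λ → Set Λ} (hd : IsList μ d)
    {S : Set (Set Λ)} (hS : ∀ x ∈ S, x ∈ C → ∀ y ∈ C, y ⊆ x → ∃ i, d x ∩ y ∈ T i y) :
    ∃ C' : Set (Set Λ), IsClub μ C' ∧
      ∀ x ∈ C', x ∈ S → ∃ D ∈ ⋃ i, Br C (T i), D ∩ x = d x := by
  classical
  let E : Set (Set Λ) := ⋃ i, Br C (T i)
  have hE : #E < μ := card_branches hμ hι hρ hC hw
  obtain ⟨ys, hys, hsep⟩ := exists_sep_all hμ hC hE
  -- dead nodes
  have h1 : ∀ (i : ι) (y b : Set Λ), ∃ k : Set Λ, (y ∈ C → k ∈ C) ∧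
      (y ∈ C → (∀ D ∈ E, D ∩ y ≠ b) → y ⊆ k ∧ ∀ e ∈ T i k, e ∩ y ≠ b) := by
    intro i y b
    by_cases hy : y ∈ C
    · by_cases hb : ∀ D ∈ E, D ∩ y ≠ b
      · have h2 : ¬ ∀ y' ∈ C, y ⊆ y' → ∃ e ∈ T i y', e ∩ y = b := by
          intro h3
          obtain ⟨D, hD, hDb⟩ := exists_branch hμ h0 (hρ i) hC (hT i) (hw i) hy h3
          exact hb D (mem_iUnion.2 ⟨i, hD⟩) hDb
        push Not at h2
        obtain ⟨k, hk, hyk, hk2⟩ := h2
        exact ⟨k, fun _ => hk, fun _ _ => ⟨hyk, hk2⟩⟩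
      · exact ⟨y, id, fun _ h => absurd h hb⟩
    · exact ⟨y, id, fun h => absurd h hy⟩
  choose k hkC hk using h1
  have h2 : ∀ y : Set Λ, ∃ K : Set Λ, y ∈ C → K ∈ C ∧ y ⊆ K ∧
      ∀ i, ∀ b ∈ T i y, k i y b ⊆ K := by
    intro y
    by_cases hy : y ∈ C
    · have h3 : #(⋃ i, ⋃ b : T i y, k i y b.1 : Set Λ) < μ :=
        card_iUnion_lt hμ hι (fun i => card_iUnion_lt hμ ((hw i y hy).trans (hρ i))
          (fun b => hC.1 _ (hkC i y b.1 hy)))
      obtain ⟨K, hK, hK2⟩ := hC.2.1 _ (card_union_lt hμ (hC.1 y hy) h3)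
      refine ⟨K, fun _ => ⟨hK, subset_union_left.trans hK2, ?_⟩⟩
      intro i b hb
      refine Subset.trans ?_ (subset_union_right.trans hK2)
      exact (subset_iUnion (fun b : T i y => k i y b.1) ⟨b, hb⟩).trans
        (subset_iUnion (fun i => ⋃ b : T i y, k i y b.1) i)
    · exact ⟨∅, fun h => absurd h hy⟩
  choose K hK using h2
  refine ⟨{x | x ∈ C ∧ (∃ y ∈ C, ys ⊆ y ∧ K y ⊆ x) ∧
    ∀ t ∈ x, ∃ y ∈ C, t ∈ y ∧ ys ⊆ y ∧ K y ⊆ x}, ⟨fun x hx => hC.1 x hx.1, ?_, ?_⟩, ?_⟩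
  · -- cofinal
    intro z hz
    obtain ⟨x0, hx0, hzx0⟩ := hC.2.1 _ (card_union_lt hμ hz (hC.1 ys hys))
    let s : ℕ → Set Λ := fun n => K^[n] x0
    have s0 : s 0 = x0 := rfl
    have ss : ∀ n, s (n + 1) = K (s n) := fun n => Function.iterate_succ_apply' K n x0
    have hsC : ∀ n, s n ∈ C := by
      intro n
      induction n with
      | zero => exact hx0
      | succ n ih =>
        rw [ss]
        exact (hK _ ih).1
    have hm : Monotone s := by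
      refine monotone_nat_of_le_succ ?_
      intro n
      rw [ss]
      exact (hK _ (hsC n)).2.1
    have hys0 : ∀ n, ys ⊆ s n := fun n => (subset_union_right.trans hzx0).trans (hm (Nat.zero_le n))
    have hKs : ∀ n, K (s n) ⊆ ⋃ n, s n := by
      intro n
      rw [← ss]
      exact subset_iUnion s (n + 1)
    refine ⟨⋃ n, s n, ⟨club_nat h0 hC hsC hm, ⟨s 0, hsC 0, hys0 0, hKs 0⟩, ?_⟩, ?_⟩
    · intro t ht
      obtain ⟨n, hn⟩ := mem_iUnion.1 ht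
      exact ⟨s n, hsC n, hn, hys0 n, hKs n⟩
    · exact (subset_union_left.trans hzx0).trans (subset_iUnion s 0)
  · -- closed
    intro F hF hne hch hlt
    refine ⟨hC.2.2 F (fun x hx => (hF hx).1) hne hch hlt, ?_, ?_⟩
    · obtain ⟨x, hx⟩ := hne
      obtain ⟨y, hy, h3, h4⟩ := (hF hx).2.1
      exact ⟨y, hy, h3, h4.trans (subset_sUnion_of_mem hx)⟩
    · rintro t ⟨x, hx, ht⟩
      obtain ⟨y, hy, h2, h3, h4⟩ := (hF hx).2.2 t ht
      exact ⟨y, hy, h2, h3, h4.trans (subset_sUnion_of_mem hx)⟩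
  · -- the values
    rintro x ⟨hxC, ⟨y1, hy1, hys1, hK1⟩, hx2⟩ hxS
    have key : ∀ y ∈ C, K y ⊆ x → ∃ D ∈ E, D ∩ y = d x ∩ y := by
      intro y hy hyx
      by_contra hcon
      push Not at hcon
      obtain ⟨hKC, hyK, hKk⟩ := hK y hy
      obtain ⟨j, hj⟩ := hS x hxS hxC (K y) hKC hyx
      have hj2 : d x ∩ y ∈ T j y := by
        have h4 := hT j y hy (K y) hKC hyK _ hj
        rwa [inter_of_sub hyK] at h4
      have hkK := hKk j _ hj2
      have h5 := hT j _ (hkC j y (d x ∩ y) hy) (K y) hKC hkK _ hj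
      rw [inter_of_sub hkK] at h5
      obtain ⟨h6, h7⟩ := hk j y (d x ∩ y) hy hcon
      exact h7 _ h5 (inter_of_sub h6)
    obtain ⟨D, hD, hDx⟩ := key y1 hy1 hK1
    have hDs : D ∩ ys = d x ∩ ys := by
      rw [← inter_of_sub (a := D) hys1, hDx, inter_of_sub hys1]
    refine ⟨D, hD, ?_⟩
    ext t
    constructor
    · rintro ⟨htD, htx⟩
      obtain ⟨y, hy, hty, hysy, hKy⟩ := hx2 t htx
      obtain ⟨D', hD', hDx'⟩ := key y hy hKy
      have h8 : D' = D := by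
        refine hsep D' hD' D hD ?_
        rw [hDs, ← inter_of_sub (a := D') hysy, hDx', inter_of_sub hysy]
      rw [h8] at hDx'
      have h9 : t ∈ D ∩ y := ⟨htD, hty⟩
      rw [hDx'] at h9
      exact h9.1
    · intro ht
      have htx : t ∈ x := hd x (hC.1 x hxC) ht
      obtain ⟨y, hy, hty, hysy, hKy⟩ := hx2 t htx
      obtain ⟨D', hD', hDx'⟩ := key y hy hKy
      have h8 : D' = D := by
        refine hsep D' hD' D hD ?_
        rw [hDs, ← inter_of_sub (a := D') hysy, hDx', inter_of_sub hysy]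
      rw [h8] at hDx'
      have h9 : t ∈ d x ∩ y := ⟨ht, hty⟩
      rw [← hDx'] at h9
      exact ⟨h9.1, htx⟩

/-- A stationary set of `x` on which `d x` is a restriction of one of fewer than `μ` sets yields
an ineffable branch through that stationary set. -/
theorem stat_of_few (hμ : μ.IsRegular) (h0 : ℵ₀ < μ) {d : Set Λ → Set Λ}
    {E : Set (Set Λ)} (hE : #E < μ) {C' : Set (Set Λ)} (hC' : IsClub μ C') {S : Set (Set Λ)}
    (h : ∀ x ∈ C', x ∈ S → ∃ D ∈ E, D ∩ x = d x) (hS : IsStat μ S) :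
    ∃ D ∈ E, IsStat μ {x | x ∈ S ∧ D ∩ x = d x} := by
  classical
  by_contra hcon
  push Not at hcon
  have h1 : ∀ D : E, ∃ K : Set (Set Λ), IsClub μ K ∧ ∀ x ∈ K, ¬ (x ∈ S ∧ D.1 ∩ x = d x) := by
    intro D
    have h2 := hcon D.1 D.2
    unfold IsStat at h2
    push Not at h2
    obtain ⟨K, hK, hK2⟩ := h2
    exact ⟨K, hK, fun x hx => hK2 x hx⟩
  choose K hK hK2 using h1
  obtain ⟨x, ⟨hx1, _, hx3⟩, hxS⟩ := hS _ (IsClub.inter hμ h0 hC' (IsClub.iInter hμ h0 hE hK))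
  obtain ⟨D, hD, hDx⟩ := h x hx1 hxS
  exact hK2 ⟨D, hD⟩ x (hx3 ⟨D, hD⟩) ⟨hxS, hDx⟩

/-- **Thin lists close to few sets.** If on a club `d x` differs from a restriction of one of fewer
than `μ` sets by fewer than `θ` elements (`θ < μ` regular), a thin list has an ineffable branch. -/
theorem close_to_few (hμ : μ.IsRegular) {θ : Cardinal.{u}} (hθ : θ.IsRegular) (hθμ : θ < μ)
    {d : Set Λ → Set Λ} (hd : IsList μ d) {C : Set (Set Λ)} (hC : IsClub μ C)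
    (hT : ∀ y ∈ C, #(Traces μ d y) < μ) {E : Set (Set Λ)} (hE : #E < μ)
    (h : ∀ x ∈ C, ∃ D ∈ E, #(symmDiff (d x) (D ∩ x) : Set Λ) < θ) :
    ∃ D : Set Λ, IsIneffableBranch μ d D := by
  classical
  by_contra hno
  push Not at hno
  have h0 : ℵ₀ < μ := lt_of_le_of_lt hθ.aleph0_le hθμ
  have hK1 : ∀ D : Set Λ, ∃ K : Set (Set Λ), IsClub μ K ∧ ∀ x ∈ K, D ∩ x ≠ d x := by
    intro D
    have := hno D
    unfold IsIneffableBranch IsStat at this
    push Not at this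
    obtain ⟨K, hK, hK2⟩ := this
    exact ⟨K, hK, fun x hx => hK2 x hx⟩
  choose K hK hKd using hK1
  have hne : Nonempty θ.ord.ToType := by
    rw [← mk_ne_zero_iff, mk_ord_toType]
    exact (lt_of_lt_of_le aleph0_pos hθ.aleph0_le).ne'
  have : NoMaxOrder θ.ord.ToType := noMaxOrder hθ.aleph0_le
  let G : Set Λ → Set (Set Λ) := fun y => {z | #z < μ ∧ (y ∈ C → y ⊆ z ∧
    ∀ p : E × Traces μ d y, z ∈ K ((p.1.1 \ y) ∪ p.2.1))}
  have hG : ∀ y : Set Λ, #y < μ → IsClub μ (G y) := by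
    intro y hy
    by_cases hyC : y ∈ C
    · have c1 := IsClub.iInter hμ h0 (ι := E × Traces μ d y) (by
          rw [← mul_def]
          exact mul_lt_of_lt hμ.aleph0_le hE (hT y hyC))
        (K := fun p => K ((p.1.1 \ y) ∪ p.2.1)) (fun p => hK _)
      have c2 := IsClub.inter hμ h0 c1 (isClub_above hμ hy)
      have e : G y = {x : Set Λ | #x < μ ∧ ∀ p : E × Traces μ d y,
          x ∈ K ((p.1.1 \ y) ∪ p.2.1)} ∩ {x : Set Λ | #x < μ ∧ y ⊆ x} := by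
        ext z
        constructor
        · rintro ⟨z1, z2⟩
          obtain ⟨z3, z4⟩ := z2 hyC
          exact ⟨⟨z1, z4⟩, ⟨z1, z3⟩⟩
        · rintro ⟨⟨z1, z2⟩, ⟨_, z3⟩⟩
          exact ⟨z1, fun _ => ⟨z3, z2⟩⟩
      rw [e]
      exact c2
    · have e : G y = {x : Set Λ | #x < μ ∧ (∅ : Set Λ) ⊆ x} := by
        ext z
        constructor
        · rintro ⟨z1, _⟩
          exact ⟨z1, empty_subset _⟩
        · rintro ⟨z1, _⟩
          exact ⟨z1, fun h => absurd h hyC⟩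
      rw [e]
      exact isClub_above hμ (empty_lt h0)
  obtain ⟨f, hfC, hfG⟩ := exists_chain hμ h0 (I := θ.ord.ToType)
    (fun i => ((mk_set_le _).trans_eq (mk_ord_toType θ)).trans_lt hθμ) (H := fun _ => C)
    (fun _ => hC) hG
  have hmono : Monotone f := by
    intro i j hij
    rcases hij.eq_or_lt with h | h
    · rw [h]
    · exact ((hfG i j h).2 (hfC i)).1
  have hxC : (⋃ i, f i) ∈ C := club_iUnion hC (by rw [mk_ord_toType]; exact hθμ) hfC hmono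
  obtain ⟨D, hD, hDs⟩ := h _ hxC
  have hdx : d (⋃ i, f i) ⊆ ⋃ i, f i := hd _ (hC.1 _ hxC)
  -- the small difference lies in some `f i0`
  have hs : ∀ t : (symmDiff (d (⋃ i, f i)) (D ∩ ⋃ i, f i) : Set Λ), ∃ i, t.1 ∈ f i := by
    rintro ⟨t, ht⟩
    have h3 : t ∈ ⋃ i, f i := by
      rcases ht with h4 | h4
      · exact hdx h4.1
      · exact h4.1.2
    exact mem_iUnion.1 h3
  choose g hg using hs
  obtain ⟨i0, hi0⟩ := exists_bound hθ hDs g
  have hsub : f i0 ⊆ ⋃ i, f i := subset_iUnion f i0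
  have hin : ∀ t, t ∈ symmDiff (d (⋃ i, f i)) (D ∩ ⋃ i, f i) → t ∈ f i0 := by
    intro t ht
    exact hmono (hi0 ⟨t, ht⟩).le (hg ⟨t, ht⟩)
  have hbT : d (⋃ i, f i) ∩ f i0 ∈ Traces μ d (f i0) := ⟨_, hC.1 _ hxC, hsub, rfl⟩
  obtain ⟨j, hj⟩ := exists_gt i0
  have e2 : (⋃ i, f i) ∈ K ((D \ f i0) ∪ (d (⋃ i, f i) ∩ f i0)) :=
    club_iUnion_tail (hK _) (by rw [mk_ord_toType]; exact hθμ) i0
      (fun i hi => ((hfG i0 i hi).2 (hfC i0)).2 (⟨D, hD⟩, ⟨_, hbT⟩)) hmono ⟨j, hj⟩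
  refine hKd _ _ e2 ?_
  ext t
  constructor
  · rintro ⟨h5 | h5, h6⟩
    · by_contra h7
      exact h5.2 (hin t (Or.inr ⟨⟨h5.1, h6⟩, h7⟩))
    · exact h5.1
  · intro h5
    refine ⟨?_, hdx h5⟩
    by_cases h6 : t ∈ f i0
    · exact Or.inr ⟨h5, h6⟩
    · refine Or.inl ⟨?_, h6⟩
      by_contra h7
      exact h6 (hin t (Or.inl ⟨h5, fun h8 => h7 h8.1⟩))

/-- **Thin lists close to unions of narrow trees.** -/
theorem close_to_union (hμ : μ.IsRegular) {ι : Type u} (hι : #ι < μ)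
    {ρ : ι → Cardinal.{u}} (hρ : ∀ i, ρ i < μ) {C : Set (Set Λ)} (hC : IsClub μ C)
    {T : ι → Set Λ → Set (Set Λ)} (hT : ∀ i, IsSubtree C (T i))
    (hw : ∀ i, ∀ y ∈ C, #(T i y) < ρ i) {θ : Cardinal.{u}} (hθ : θ.IsRegular) (hθμ : θ < μ)
    {d : Set Λ → Set Λ} (hd : IsList μ d) (hthin : HasWidth μ μ d)
    (hclose : ∀ x ∈ C, ∃ i, ∃ b ∈ T i x, #(symmDiff (d x) b : Set Λ) < θ) :
    ∃ D : Set Λ, IsIneffableBranch μ d D := by
  classical
  have h0 : ℵ₀ < μ := lt_of_le_of_lt hθ.aleph0_le hθμ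
  have h1 : ∀ x : Set Λ, ∃ b : Set Λ, x ∈ C → (∃ i, b ∈ T i x) ∧
      #(symmDiff (d x) b : Set Λ) < θ := by
    intro x
    by_cases hx : x ∈ C
    · obtain ⟨i, b, hb, hb2⟩ := hclose x hx
      exact ⟨b, fun _ => ⟨⟨i, hb⟩, hb2⟩⟩
    · exact ⟨∅, fun h => absurd h hx⟩
  choose b hb using h1
  let d' : Set Λ → Set Λ := fun x => b x ∩ x
  have hd' : IsList μ d' := fun x _ => inter_subset_right
  obtain ⟨C', hC', hC'2⟩ := union_of_narrow hμ h0 hι hρ hC hT hw hd' (S := univ) (by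
    intro x _ hx y hy hyx
    obtain ⟨⟨i, hi⟩, _⟩ := hb x hx
    refine ⟨i, ?_⟩
    change (b x ∩ x) ∩ y ∈ T i y
    rw [inter_of_sub hyx]
    exact hT i y hy x hx hyx _ hi)
  obtain ⟨C1, hC1, hC12⟩ := hthin
  refine close_to_few hμ hθ hθμ hd (IsClub.inter hμ h0 (IsClub.inter hμ h0 hC hC') hC1)
    (fun y hy => hC12 y hy.2) (card_branches hμ hι hρ hC hw) ?_
  rintro x ⟨⟨hx, hx'⟩, _⟩
  obtain ⟨D, hD, hDx⟩ := hC'2 x hx' (mem_univ x)
  refine ⟨D, hD, ?_⟩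
  rw [hDx]
  refine (mk_le_mk_of_subset ?_).trans_lt (hb x hx).2
  change symmDiff (d x) (b x ∩ x) ⊆ symmDiff (d x) (b x)
  have hdx := hd x (hC.1 x hx)
  rintro t (⟨h2, h3⟩ | ⟨h2, h3⟩)
  · exact Or.inl ⟨h2, fun h4 => h3 ⟨h4, hdx h2⟩⟩
  · exact Or.inr ⟨h2.1, h3⟩

end Pool.Agent.Lib.MP_283c84_lc
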